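import Mathlib

/-! # Integral coset equivalence: induction to an overgroup -/

set_option autoImplicit false

namespace Pool.Agent.R738.ZCE

open Finsupp

/-- `ℤ[Γ/H₁]` and `ℤ[Γ/H₂]` are isomorphic as `ℤ[Γ]`-modules -/
def CosetEquiv {Γ : Type} [Group Γ] (H₁ H₂ : Subgroup Γ) : Prop :=
  ∃ e : ((Γ ⧸ H₁) →₀ ℤ) ≃ₗ[ℤ] ((Γ ⧸ H₂) →₀ ℤ), ∀ (g : Γ) (x : (Γ ⧸ H₁) →₀ ℤ),
    e (x.mapDomain (g • ·)) = (e x).mapDomain (g • ·)

variable {K Γ X Y : Type} [Group K] [Group Γ] [Fintype X] [Fintype Y] [DecidableEq X]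
  [DecidableEq Y]

/-- stabilizer -/
def stab (a : K →* Equiv.Perm X) (x : X) : Subgroup K where
  carrier := {k | a k x = x}
  one_mem' := by simp
  mul_mem' := by
    intro k l hk hl
    change a (k * l) x = x
    rw [map_mul, Equiv.Perm.mul_apply, hl, hk]
  inv_mem' := by
    intro k hk
    change a k⁻¹ x = x
    rw [map_inv, Equiv.Perm.inv_eq_iff_eq]
    exact hk.symm

theorem mem_stab {a : K →* Equiv.Perm X} {x : X} {k : K} : k ∈ stab a x ↔ a k x = x := Iff.rfl

section

variable (f : K →* Γ) (a : K →* Equiv.Perm X) (b : K →* Equiv.Perm Y) (x₀ : X) (y₀ : Y)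
  (ha : ∀ x, ∃ k, a k x₀ = x) (hb : ∀ y, ∃ k, b k y₀ = y)

/-- the embedding of `Y` into the cosets -/
noncomputable def emb (y : Y) : Γ ⧸ (stab b y₀).map f :=
  QuotientGroup.mk (f (hb y).choose)

theorem emb_spec (k : K) (y : Y) (h : b k y₀ = y) : emb f b y₀ hb y = QuotientGroup.mk (f k) := by
  have h1 := (hb y).choose_spec
  rw [emb, QuotientGroup.eq, ← map_inv, ← map_mul]
  refine ⟨_, ?_, rfl⟩
  change b ((hb y).choose⁻¹ * k) y₀ = y₀
  rw [map_mul, Equiv.Perm.mul_apply, h, map_inv, Equiv.Perm.inv_eq_iff_eq]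
  exact h1.symm

theorem emb_smul (k : K) (y : Y) : emb f b y₀ hb (b k y) = f k • emb f b y₀ hb y := by
  obtain ⟨l, rfl⟩ := hb y
  rw [emb_spec f b y₀ hb l _ rfl, emb_spec f b y₀ hb (k * l) _ (by rw [map_mul]; rfl), map_mul]
  rfl

variable (N : X → Y → ℤ) (hN : ∀ k x y, N (a k x) (b k y) = N x y)

/-- the image of the base coset -/
noncomputable def vec : (Γ ⧸ (stab b y₀).map f) →₀ ℤ :=
  ∑ y, single (emb f b y₀ hb y) (N x₀ y)

theorem mapDomain_sum_single {α : Type} (g : Γ) (w : α → Γ ⧸ (stab b y₀).map f) (c : α → ℤ)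
    (s : Finset α) : mapDomain (g • ·) (∑ i ∈ s, single (w i) (c i)) =
      ∑ i ∈ s, single (g • w i) (c i) := by
  rw [mapDomain_finsetSum]
  exact Finset.sum_congr rfl fun i _ => mapDomain_single

include hN in
theorem vec_smul (k : K) : mapDomain (f k • ·) (vec f b x₀ y₀ hb N) =
    ∑ y, single (emb f b y₀ hb y) (N (a k x₀) y) := by
  rw [vec, mapDomain_sum_single]
  have h : ∀ y, single (f k • emb f b y₀ hb y) (N x₀ y) =
      single (emb f b y₀ hb (b k y)) (N (a k x₀) (b k y)) := by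
    intro y
    rw [hN, emb_smul]
  rw [Finset.sum_congr rfl fun y _ => h y]
  exact Equiv.sum_comp (b k) (fun y => single (emb f b y₀ hb y) (N (a k x₀) y))

/-- the intertwining map -/
noncomputable def tmap : ((Γ ⧸ (stab a x₀).map f) →₀ ℤ) →ₗ[ℤ] ((Γ ⧸ (stab b y₀).map f) →₀ ℤ) :=
  Finsupp.linearCombination ℤ (fun c => mapDomain (Quotient.out c • ·) (vec f b x₀ y₀ hb N))

include hN in
theorem tmap_single (g : Γ) (n : ℤ) :
    tmap f a b x₀ y₀ hb N (single (QuotientGroup.mk g) n) =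
      n • mapDomain (g • ·) (vec f b x₀ y₀ hb N) := by
  rw [tmap, linearCombination_single]
  congr 1
  obtain ⟨⟨h, hh⟩, h1⟩ := QuotientGroup.mk_out_eq_mul ((stab a x₀).map f) g
  obtain ⟨k, hk, rfl⟩ := hh
  rw [h1]
  have h2 : (fun c : Γ ⧸ (stab b y₀).map f => (g * f k) • c) = (g • ·) ∘ (f k • ·) := by
    funext c
    exact mul_smul _ _ _
  rw [h2, mapDomain_comp, vec_smul f a b x₀ y₀ hb N hN k, (hk : a k x₀ = x₀)]
  rfl

include hN in
theorem tmap_smul (g : Γ) (u : (Γ ⧸ (stab a x₀).map f) →₀ ℤ) :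
    tmap f a b x₀ y₀ hb N (mapDomain (g • ·) u) =
      mapDomain (g • ·) (tmap f a b x₀ y₀ hb N u) := by
  induction u using Finsupp.induction_linear with
  | zero => simp
  | add u v hu hv => rw [mapDomain_add, map_add, map_add, mapDomain_add, hu, hv]
  | single c n =>
    obtain ⟨h, rfl⟩ := QuotientGroup.mk_surjective c
    rw [mapDomain_single]
    change tmap f a b x₀ y₀ hb N (single (QuotientGroup.mk (g * h)) n) = _
    rw [tmap_single f a b x₀ y₀ hb N hN, tmap_single f a b x₀ y₀ hb N hN, mapDomain_smul,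
      ← mapDomain_comp]
    congr 2
    funext c
    exact mul_smul _ _ _

end

section

variable (f : K →* Γ) (a : K →* Equiv.Perm X) (b : K →* Equiv.Perm Y) (x₀ : X) (y₀ : Y)
  (ha : ∀ x, ∃ k, a k x₀ = x) (hb : ∀ y, ∃ k, b k y₀ = y)
  (N : X → Y → ℤ) (hN : ∀ k x y, N (a k x) (b k y) = N x y)
  (M : Y → X → ℤ) (hM : ∀ k y x, M (b k y) (a k x) = M y x)
  (hNM : ∀ x x', ∑ y, N x y * M y x' = if x = x' then 1 else 0)

include hN hM hNM in
theorem tmap_tmap (u : (Γ ⧸ (stab a x₀).map f) →₀ ℤ) :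
    tmap f b a y₀ x₀ ha M (tmap f a b x₀ y₀ hb N u) = u := by
  induction u using Finsupp.induction_linear with
  | zero => simp
  | add u v hu hv => rw [map_add, map_add, hu, hv]
  | single c n =>
    obtain ⟨h, rfl⟩ := QuotientGroup.mk_surjective c
    rw [tmap_single f a b x₀ y₀ hb N hN, map_smul, tmap_smul f b a y₀ x₀ ha M hM]
    have h1 : tmap f b a y₀ x₀ ha M (vec f b x₀ y₀ hb N) =
        single (QuotientGroup.mk 1) 1 := by
      rw [vec, map_sum]
      have h2 : ∀ y, tmap f b a y₀ x₀ ha M (single (emb f b y₀ hb y) (N x₀ y)) =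
          ∑ x, single (emb f a x₀ ha x) (N x₀ y * M y x) := by
        intro y
        obtain ⟨k, rfl⟩ := hb y
        rw [emb_spec f b y₀ hb k _ rfl, tmap_single f b a y₀ x₀ ha M hM,
          vec_smul f b a y₀ x₀ ha M hM k, Finset.smul_sum]
        refine Finset.sum_congr rfl fun x _ => ?_
        rw [smul_single, smul_eq_mul]
      rw [Finset.sum_congr rfl fun y _ => h2 y, Finset.sum_comm]
      have h3 : ∀ x, ∑ y, single (emb f a x₀ ha x) (N x₀ y * M y x) =
          if x₀ = x then single (QuotientGroup.mk 1) 1 else 0 := by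
        intro x
        rw [← Finsupp.single_finsetSum, hNM]
        split_ifs with hx
        · rw [emb_spec f a x₀ ha 1 x (by rw [map_one]; exact hx), map_one]
        · rw [single_zero]
      rw [Finset.sum_congr rfl fun x _ => h3 x]
      simp
    rw [h1, mapDomain_single, smul_single, smul_eq_mul, mul_one]
    change single (QuotientGroup.mk (h * 1)) n = _
    rw [mul_one]

end

/-- An equivariant invertible integral matrix between two transitive `K`-sets shows that the images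
of the stabilizers in an overgroup are coset equivalent. -/
theorem cosetEquiv_of_matrix (f : K →* Γ) (a : K →* Equiv.Perm X) (b : K →* Equiv.Perm Y)
    (x₀ : X) (y₀ : Y) (ha : ∀ x, ∃ k, a k x₀ = x) (hb : ∀ y, ∃ k, b k y₀ = y)
    (N : Matrix X Y ℤ) (hN : ∀ k x y, N (a k x) (b k y) = N x y)
    (M : Matrix Y X ℤ) (hNM : N * M = 1) (hMN : M * N = 1) :
    CosetEquiv ((stab a x₀).map f) ((stab b y₀).map f) := by
  have hM : ∀ k y x, M (b k y) (a k x) = M y x := by
    intro k
    let M' : Matrix Y X ℤ := fun y x => M (b k y) (a k x)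
    have h1 : M' * N = 1 := by
      ext y y'
      rw [Matrix.mul_apply]
      have h2 : ∀ x, M' y x * N x y' = M (b k y) (a k x) * N (a k x) (b k y') := by
        intro x
        rw [hN]
      rw [Finset.sum_congr rfl fun x _ => h2 x,
        Equiv.sum_comp (a k) (fun x => M (b k y) x * N x (b k y')), ← Matrix.mul_apply, hMN,
        Matrix.one_apply, Matrix.one_apply]
      simp
    have h3 : M' = M := by
      calc M' = M' * (N * M) := by rw [hNM, Matrix.mul_one]
        _ = (M' * N) * M := by rw [Matrix.mul_assoc]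
        _ = M := by rw [h1, Matrix.one_mul]
    intro y x
    exact congrFun (congrFun h3 y) x
  have hNM' : ∀ x x', ∑ y, N x y * M y x' = if x = x' then 1 else 0 := by
    intro x x'
    rw [← Matrix.mul_apply, hNM, Matrix.one_apply]
  have hMN' : ∀ y y', ∑ x, M y x * N x y' = if y = y' then 1 else 0 := by
    intro x x'
    rw [← Matrix.mul_apply, hMN, Matrix.one_apply]
  refine ⟨LinearEquiv.ofLinear (tmap f a b x₀ y₀ hb N) (tmap f b a y₀ x₀ ha M) ?_ ?_, ?_⟩
  · apply LinearMap.ext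
    intro u
    exact tmap_tmap f b a y₀ x₀ hb ha M hM N hN hMN' u
  · apply LinearMap.ext
    intro u
    exact tmap_tmap f a b x₀ y₀ ha hb N hN M hM hNM' u
  · intro g u
    exact tmap_smul f a b x₀ y₀ hb N hN g u

end Pool.Agent.R738.ZCE
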