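import Mathlib

/-! # Preimages in a wreath product that are not isomorphic, and core-freeness in a symmetric group -/

set_option autoImplicit false

namespace Pool.Agent.R738.ZCE

/-- A normal subgroup of the symmetric group on `K` inside the regular representation is trivial. -/
theorem regular_core {K : Type} [Group K] [Finite K] (hK : 5 ≤ Nat.card K)
    (N : Subgroup (Equiv.Perm K)) (hN : N.Normal)
    (hle : N ≤ (MulAction.toPermHom K K).range) : N = ⊥ := by
  classical
  have := Fintype.ofFinite K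
  have hex : ∀ s : Finset K, s.card < 5 → ∃ x, x ∉ s := by
    intro s hs
    have h1 : s.card < (Finset.univ : Finset K).card := by
      rw [Finset.card_univ, ← Nat.card_eq_fintype_card]
      omega
    obtain ⟨x, -, hx⟩ := Finset.exists_mem_notMem_of_card_lt_card h1
    exact ⟨x, hx⟩
  rw [eq_bot_iff]
  intro n hn
  obtain ⟨k, hk⟩ := hle hn
  rw [Subgroup.mem_bot]
  by_contra hne
  have hk1 : k ≠ 1 := by
    rintro rfl
    exact hne (by rw [← hk, map_one])
  have hnk : ∀ x, n x = k * x := by
    intro x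
    rw [← hk]
    rfl
  obtain ⟨y, hy⟩ := hex {1, k} (lt_of_le_of_lt Finset.card_le_two (by omega))
  have hy1 : y ≠ 1 := fun h => hy (by simp [h])
  have hyk : y ≠ k := fun h => hy (by simp [h])
  obtain ⟨z, hz⟩ := hex {k, y, 1, k⁻¹ * y} (lt_of_le_of_lt Finset.card_le_four (by omega))
  have hzk : z ≠ k := fun h => hz (by simp [h])
  have hzy : z ≠ y := fun h => hz (by simp [h])
  have hz1 : z ≠ 1 := fun h => hz (by simp [h])
  have hzky : z ≠ k⁻¹ * y := fun h => hz (by simp [h])
  have hconj := hN.conj_mem n hn (Equiv.swap k y)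
  obtain ⟨l, hl⟩ := hle hconj
  have hll : ∀ x, Equiv.swap k y (k * ((Equiv.swap k y)⁻¹ x)) = l * x := by
    intro x
    have h1 : (MulAction.toPermHom K K) l x = l * x := rfl
    rw [← h1, hl, Equiv.Perm.mul_apply, Equiv.Perm.mul_apply, hnk]
  have e1 := hll 1
  rw [Equiv.swap_inv, Equiv.swap_apply_of_ne_of_ne hk1.symm hy1.symm, mul_one, mul_one,
    Equiv.swap_apply_left] at e1
  have e2 := hll z
  have h3 : k * z ≠ k := fun h => hz1 (mul_eq_left.mp h)
  have h4 : k * z ≠ y := fun h => hzky (by rw [← h]; group)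
  rw [Equiv.swap_inv, Equiv.swap_apply_of_ne_of_ne hzk hzy,
    Equiv.swap_apply_of_ne_of_ne h3 h4] at e2
  have e3 := mul_right_cancel e2
  exact hyk (by rw [e1, e3])

section

variable {G X : Type} [Group G] [DecidableEq X] (α : G →* Equiv.Perm X)

/-- the coordinate action on functions -/
def phi : G →* MulAut (X → Equiv.Perm (Fin 3)) where
  toFun g :=
    { toFun := fun σ x => σ ((α g)⁻¹ x)
      invFun := fun σ x => σ (α g x)
      left_inv := by intro σ; funext x; simp
      right_inv := by intro σ; funext x; simp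
      map_mul' := by intro σ τ; rfl }
  map_one' := by
    ext σ x
    simp
  map_mul' := by
    intro g h
    ext σ x
    simp

theorem phi_apply (g : G) (σ : X → Equiv.Perm (Fin 3)) (x : X) :
    phi α g σ x = σ ((α g)⁻¹ x) := rfl

/-- the wreath product -/
abbrev Wr : Type := SemidirectProduct (X → Equiv.Perm (Fin 3)) G (phi α)

/-- preimage -/
def pre (S : Subgroup G) : Subgroup (Wr α) := S.comap SemidirectProduct.rightHom

theorem mem_pre {S : Subgroup G} {k : Wr α} : k ∈ pre α S ↔ k.right ∈ S := Iff.rfl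

/-- functions supported at one point -/
def pt (x : X) : Equiv.Perm (Fin 3) →* Wr α :=
  SemidirectProduct.inl.comp (MonoidHom.mulSingle (fun _ : X => Equiv.Perm (Fin 3)) x)

theorem pt_left (x : X) (s : Equiv.Perm (Fin 3)) : (pt α x s).left = Pi.mulSingle x s := rfl

theorem pt_right (x : X) (s : Equiv.Perm (Fin 3)) : (pt α x s).right = 1 := rfl

theorem pt_mem (S : Subgroup G) (x : X) (s : Equiv.Perm (Fin 3)) : pt α x s ∈ pre α S := by
  rw [mem_pre, pt_right]
  exact S.one_mem

theorem pt_injective (x : X) : Function.Injective (pt α x) := by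
  intro s t h
  have h1 : (pt α x s).left x = (pt α x t).left x := by rw [h]
  rw [pt_left, pt_left, Pi.mulSingle_eq_same, Pi.mulSingle_eq_same] at h1
  exact h1

theorem conj_pt (k : Wr α) (x : X) (s : Equiv.Perm (Fin 3)) :
    k * pt α x s * k⁻¹ =
      pt α (α k.right x) (k.left (α k.right x) * s * (k.left (α k.right x))⁻¹) := by
  apply SemidirectProduct.ext
  · rw [pt_left, SemidirectProduct.mul_left, SemidirectProduct.mul_left, SemidirectProduct.mul_right,
      SemidirectProduct.inv_left, pt_left, pt_right, mul_one]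
    funext y
    rw [Pi.mul_apply, Pi.mul_apply, phi_apply, phi_apply, phi_apply]
    simp only [map_inv, inv_inv, Pi.inv_apply]
    have h1 : (α k.right) ((α k.right)⁻¹ y) = y := by simp
    rw [h1]
    by_cases hy : y = α k.right x
    · subst hy
      rw [Pi.mulSingle_eq_same]
      simp
    · rw [Pi.mulSingle_eq_of_ne hy, Pi.mulSingle_eq_of_ne, mul_one, mul_inv_cancel]
      intro h
      apply hy
      rw [← h]
      simp
  · rw [SemidirectProduct.mul_right, SemidirectProduct.mul_right, pt_right, pt_right,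
      SemidirectProduct.inv_right]
    group

/-- If `S` fixes a point then its preimage has a normal subgroup of order six. -/
theorem exists_normal (S : Subgroup G) (x : X) (hx : ∀ g ∈ S, α g x = x) :
    ∃ N : Subgroup (pre α S), N.Normal ∧ Nat.card N = 6 := by
  let q : Equiv.Perm (Fin 3) →* pre α S :=
    (pt α x).codRestrict (pre α S) (pt_mem α S x)
  refine ⟨q.range, ?_, ?_⟩
  · constructor
    rintro _ ⟨s, rfl⟩ k
    refine ⟨k.1.left x * s * (k.1.left x)⁻¹, ?_⟩
    apply Subtype.ext
    change pt α x _ = k.1 * pt α x s * (k.1)⁻¹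
    rw [conj_pt, hx k.1.right k.2]
  · have hinj : Function.Injective q := by
      intro s t h
      exact pt_injective α x (congrArg Subtype.val h)
    rw [← Nat.card_congr (MonoidHom.ofInjective hinj).toEquiv, Nat.card_eq_fintype_card,
      Fintype.card_perm, Fintype.card_fin]
    rfl

theorem comm_dec : ∀ t : Equiv.Perm (Fin 3), t ≠ 1 → ∃ s : Equiv.Perm (Fin 3),
    s * t * s⁻¹ * t⁻¹ ≠ 1 := by decide

theorem cube_dec : ∀ t s : Equiv.Perm (Fin 3), ∀ i j : Fin 3, s * t * s⁻¹ * t⁻¹ ≠ 1 →
    (s * t * s⁻¹ * t⁻¹) ^ (i : ℕ) = (s * t * s⁻¹ * t⁻¹) ^ (j : ℕ) → i = j := by decide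

/-- If the action is faithful and `S` has no fixed point, there is no normal subgroup of order six
in the preimage. -/
theorem no_normal (hα : Function.Injective α) (S : Subgroup G) (hS : ∀ x, ∃ g ∈ S, α g x ≠ x)
    (N : Subgroup (pre α S)) (hN : N.Normal) : Nat.card N ≠ 6 := by
  intro hcard
  have : Finite N := Nat.finite_of_card_ne_zero (by omega)
  -- the commutator of an element of `N` and an element of the base group
  have hcomm : ∀ n ∈ N, ∀ x s, (⟨pt α x s, pt_mem α S x s⟩ : pre α S) * n *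
      (⟨pt α x s, pt_mem α S x s⟩ : pre α S)⁻¹ * n⁻¹ ∈ N := by
    intro n hn x s
    exact N.mul_mem (hN.conj_mem n hn _) (N.inv_mem hn)
  -- an element of the base group
  have h1 : ∃ n ∈ N, n.1.right = 1 ∧ n.1.left ≠ 1 := by
    have h2 : ∃ n ∈ N, n ≠ 1 := by
      by_contra hcon
      push Not at hcon
      have h3 : N = ⊥ := by
        rw [eq_bot_iff]
        intro n hn
        rw [Subgroup.mem_bot]
        exact hcon n hn
      rw [h3, Subgroup.card_bot] at hcard
      omega
    obtain ⟨n, hn, hn1⟩ := h2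
    by_cases hr : n.1.right = 1
    · refine ⟨n, hn, hr, fun hl => hn1 ?_⟩
      apply Subtype.ext
      apply SemidirectProduct.ext
      · rw [hl]; rfl
      · rw [hr]; rfl
    · have hx : ∃ x, α n.1.right x ≠ x := by
        by_contra hcon
        push Not at hcon
        apply hr
        apply hα
        rw [map_one]
        ext x
        exact hcon x
      obtain ⟨x, hx⟩ := hx
      refine ⟨_, hcomm n hn x (Equiv.swap 0 1), ?_, ?_⟩
      · change (pt α x (Equiv.swap 0 1) * n.1 * (pt α x (Equiv.swap 0 1))⁻¹ * (n.1)⁻¹).right = 1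
        simp only [SemidirectProduct.mul_right, SemidirectProduct.inv_right, pt_right]
        group
      · change (pt α x (Equiv.swap 0 1) * n.1 * (pt α x (Equiv.swap 0 1))⁻¹ * (n.1)⁻¹).left ≠ 1
        have h3 : pt α x (Equiv.swap 0 1) * n.1 * (pt α x (Equiv.swap 0 1))⁻¹ * (n.1)⁻¹ =
            pt α x (Equiv.swap 0 1) * (n.1 * pt α x (Equiv.swap 0 1)⁻¹ * (n.1)⁻¹) := by
          rw [map_inv]
          group
        rw [h3, conj_pt]
        intro h4
        have h5 := congrFun h4 x
        rw [SemidirectProduct.mul_left, pt_right, map_one, pt_left, pt_left] at h5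
        change (Pi.mulSingle x (Equiv.swap 0 1) : X → Equiv.Perm (Fin 3)) x *
          (Pi.mulSingle (α n.1.right x) _ : X → Equiv.Perm (Fin 3)) x = 1 at h5
        rw [Pi.mulSingle_eq_same, Pi.mulSingle_eq_of_ne (Ne.symm hx), mul_one] at h5
        revert h5
        decide
  obtain ⟨n, hn, hr, hl⟩ := h1
  have hx : ∃ x, n.1.left x ≠ 1 := by
    by_contra hcon
    push Not at hcon
    exact hl (funext hcon)
  obtain ⟨x, hx⟩ := hx
  obtain ⟨s, hs⟩ := comm_dec _ hx
  -- the commutator of `n` with a suitable element of the base group at `x`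
  have h6 : (⟨pt α x (s * n.1.left x * s⁻¹ * (n.1.left x)⁻¹), pt_mem α S x _⟩ : pre α S) ∈ N := by
    have h7 := hcomm n hn x s
    have h8 : (⟨pt α x s, pt_mem α S x s⟩ : pre α S) * n *
      (⟨pt α x s, pt_mem α S x s⟩ : pre α S)⁻¹ * n⁻¹ =
        ⟨pt α x (s * n.1.left x * s⁻¹ * (n.1.left x)⁻¹), pt_mem α S x _⟩ := by
      apply Subtype.ext
      change pt α x s * n.1 * (pt α x s)⁻¹ * (n.1)⁻¹ = pt α x _
      have h3 : pt α x s * n.1 * (pt α x s)⁻¹ * (n.1)⁻¹ =
            pt α x s * (n.1 * pt α x s⁻¹ * (n.1)⁻¹) := by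
          rw [map_inv]
          group
      rw [h3, conj_pt, hr, map_one, Equiv.Perm.one_apply, ← map_mul]
      simp only [mul_assoc]
    rw [h8] at h7
    exact h7
  obtain ⟨g, hg, hgx⟩ := hS x
  have h9 : (⟨pt α (α g x) (s * n.1.left x * s⁻¹ * (n.1.left x)⁻¹), pt_mem α S _ _⟩ : pre α S) ∈ N := by
    have h10 := hN.conj_mem _ h6 ⟨SemidirectProduct.inr g, hg⟩
    have h11 : (⟨SemidirectProduct.inr g, hg⟩ : pre α S) *
        (⟨pt α x (s * n.1.left x * s⁻¹ * (n.1.left x)⁻¹), pt_mem α S x _⟩ : pre α S) *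
        (⟨SemidirectProduct.inr g, hg⟩ : pre α S)⁻¹ =
        ⟨pt α (α g x) (s * n.1.left x * s⁻¹ * (n.1.left x)⁻¹), pt_mem α S _ _⟩ := by
      apply Subtype.ext
      change (SemidirectProduct.inr g : Wr α) * pt α x _ * (SemidirectProduct.inr g)⁻¹ = _
      rw [conj_pt]
      rw [SemidirectProduct.left_inr, SemidirectProduct.right_inr, Pi.one_apply, one_mul, inv_one,
        mul_one]
    rw [h11] at h10
    exact h10
  -- nine elements of `N`
  set c := s * n.1.left x * s⁻¹ * (n.1.left x)⁻¹ with hc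
  let F : Fin 3 × Fin 3 → N := fun p =>
    ⟨_, N.mul_mem (N.pow_mem h6 (p.1 : ℕ)) (N.pow_mem h9 (p.2 : ℕ))⟩
  have hF : ∀ p, ((F p).1.1).left = Pi.mulSingle x (c ^ (p.1 : ℕ)) *
      Pi.mulSingle (α g x) (c ^ (p.2 : ℕ)) := by
    intro p
    change ((pt α x c) ^ (p.1 : ℕ) * (pt α (α g x) c) ^ (p.2 : ℕ)).left = _
    rw [← map_pow, ← map_pow, SemidirectProduct.mul_left, pt_right, map_one, pt_left, pt_left]
    rfl
  have hFinj : Function.Injective F := by
    intro p q hpq
    have h12 : ((F p).1.1).left = ((F q).1.1).left := by rw [hpq]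
    rw [hF, hF] at h12
    have h13 := congrFun h12 x
    have h14 := congrFun h12 (α g x)
    rw [Pi.mul_apply, Pi.mul_apply, Pi.mulSingle_eq_same, Pi.mulSingle_eq_same,
      Pi.mulSingle_eq_of_ne (Ne.symm hgx), Pi.mulSingle_eq_of_ne (Ne.symm hgx), mul_one,
      mul_one] at h13
    rw [Pi.mul_apply, Pi.mul_apply, Pi.mulSingle_eq_same, Pi.mulSingle_eq_same,
      Pi.mulSingle_eq_of_ne hgx, Pi.mulSingle_eq_of_ne hgx, one_mul,
      one_mul] at h14
    exact Prod.ext (cube_dec _ _ _ _ hs h13) (cube_dec _ _ _ _ hs h14)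
  have h15 := Nat.card_le_card_of_injective F hFinj
  rw [hcard, Nat.card_prod, Nat.card_eq_fintype_card, Fintype.card_fin] at h15
  omega

/-- The preimages are not isomorphic. -/
theorem not_iso (hα : Function.Injective α) (S T : Subgroup G) (x : X) (hx : ∀ g ∈ S, α g x = x)
    (hT : ∀ x, ∃ g ∈ T, α g x ≠ x) (e : pre α S ≃* pre α T) : False := by
  obtain ⟨N, hN, hcard⟩ := exists_normal α S x hx
  refine no_normal α hα T hT (N.map e.toMonoidHom) (hN.map _ e.surjective) ?_
  rw [Nat.card_congr (N.equivMapOfInjective e.toMonoidHom e.injective).toEquiv.symm, hcard]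

end

end Pool.Agent.R738.ZCE
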