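import Pool.Agent.R738.ZCE.Gen
import Pool.Agent.R738.ZCE.Wreath
import Pool.Agent.R738.ZCE.Data

/-! # Scott's pair -/

set_option autoImplicit false

namespace Pool.Agent.R738.ZCE

open Equiv

/-- bounded table lookup -/
def look (d : Nat) (x : Fin 203) : Fin 203 :=
  ⟨Nat.min (lk d x.1) 202, Nat.lt_succ_of_le (Nat.min_le_right _ _)⟩

theorem look_val {d : Nat} (h : ∀ j, j < 203 → lk d j ≤ 202) (x : Fin 203) :
    (look d x).1 = lk d x.1 := Nat.min_eq_left (h x.1 x.2)

theorem ltA1 : ∀ j, j < 203 → lk dA1 j ≤ 202 := by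
  intro j hj
  have := allB_spec chkLt j hj
  simp only [Bool.and_eq_true, Nat.ble_eq] at this
  exact this.1.1.1.1.1

theorem ltB1 : ∀ j, j < 203 → lk dB1 j ≤ 202 := by
  intro j hj
  have := allB_spec chkLt j hj
  simp only [Bool.and_eq_true, Nat.ble_eq] at this
  exact this.1.1.1.1.2

theorem ltC1 : ∀ j, j < 203 → lk dC1 j ≤ 202 := by
  intro j hj
  have := allB_spec chkLt j hj
  simp only [Bool.and_eq_true, Nat.ble_eq] at this
  exact this.1.1.1.2

theorem ltA2 : ∀ j, j < 203 → lk dA2 j ≤ 202 := by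
  intro j hj
  have := allB_spec chkLt j hj
  simp only [Bool.and_eq_true, Nat.ble_eq] at this
  exact this.1.1.2

theorem ltB2 : ∀ j, j < 203 → lk dB2 j ≤ 202 := by
  intro j hj
  have := allB_spec chkLt j hj
  simp only [Bool.and_eq_true, Nat.ble_eq] at this
  exact this.1.2

theorem ltC2 : ∀ j, j < 203 → lk dC2 j ≤ 202 := by
  intro j hj
  have := allB_spec chkLt j hj
  simp only [Bool.and_eq_true, Nat.ble_eq] at this
  exact this.2

theorem ord (j : Nat) (hj : j < 203) : (((((lk dA1 (lk dA1 j) = j ∧ lk dA2 (lk dA2 j) = j) ∧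
    lk dC1 (lk dC1 j) = j) ∧ lk dC2 (lk dC2 j) = j) ∧
    lk dB1 (lk dB1 (lk dB1 j)) = j) ∧ lk dB2 (lk dB2 (lk dB2 j)) = j) := by
  have := allB_spec chkOrd j hj
  simpa only [Bool.and_eq_true, Nat.beq_eq] using this

/-- a permutation of order two from a table -/
def mk2 (d : Nat) (h : ∀ j, j < 203 → lk d j ≤ 202) (h2 : ∀ j, j < 203 → lk d (lk d j) = j) :
    Perm (Fin 203) where
  toFun := look d
  invFun := look d
  left_inv := by
    intro x
    apply Fin.ext
    rw [look_val h, look_val h, h2 x.1 x.2]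
  right_inv := by
    intro x
    apply Fin.ext
    rw [look_val h, look_val h, h2 x.1 x.2]

/-- a permutation of order three from a table -/
def mk3 (d : Nat) (h : ∀ j, j < 203 → lk d j ≤ 202) (h3 : ∀ j, j < 203 → lk d (lk d (lk d j)) = j) :
    Perm (Fin 203) where
  toFun := look d
  invFun x := look d (look d x)
  left_inv := by
    intro x
    apply Fin.ext
    rw [look_val h, look_val h, look_val h, h3 x.1 x.2]
  right_inv := by
    intro x
    apply Fin.ext
    rw [look_val h, look_val h, look_val h, h3 x.1 x.2]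

def pA1 : Perm (Fin 203) := mk2 dA1 ltA1 fun j hj => (ord j hj).1.1.1.1.1

def pA2 : Perm (Fin 203) := mk2 dA2 ltA2 fun j hj => (ord j hj).1.1.1.1.2

def pB1 : Perm (Fin 203) := mk3 dB1 ltB1 fun j hj => (ord j hj).1.2

def pB2 : Perm (Fin 203) := mk3 dB2 ltB2 fun j hj => (ord j hj).2

def pC1 : Perm (Fin 203) := mk2 dC1 ltC1 fun j hj => (ord j hj).1.1.1.2

def pC2 : Perm (Fin 203) := mk2 dC2 ltC2 fun j hj => (ord j hj).1.1.2

theorem pA1_val (x : Fin 203) : (pA1 x).1 = lk dA1 x.1 := look_val ltA1 x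

theorem pA2_val (x : Fin 203) : (pA2 x).1 = lk dA2 x.1 := look_val ltA2 x

theorem pB1_val (x : Fin 203) : (pB1 x).1 = lk dB1 x.1 := look_val ltB1 x

theorem pB2_val (x : Fin 203) : (pB2 x).1 = lk dB2 x.1 := look_val ltB2 x

theorem pC1_val (x : Fin 203) : (pC1 x).1 = lk dC1 x.1 := look_val ltC1 x

theorem pC2_val (x : Fin 203) : (pC2 x).1 = lk dC2 x.1 := look_val ltC2 x

/-- the equivariant matrix -/
def matN : Matrix (Fin 203) (Fin 203) ℤ := fun j i => (nE j.1 i.1 : ℤ) - 1

/-- the six plus neighbours -/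
def nbP (i : Fin 203) (t : Fin 6) : Fin 203 :=
  ⟨Nat.min (lk dP (6 * i.1 + t.1)) 202, Nat.lt_succ_of_le (Nat.min_le_right _ _)⟩

/-- the five minus neighbours -/
def nbQ (i : Fin 203) (t : Fin 5) : Fin 203 :=
  ⟨Nat.min (lk dQ (5 * i.1 + t.1)) 202, Nat.lt_succ_of_le (Nat.min_le_right _ _)⟩

theorem nbP_val (i : Fin 203) (t : Fin 6) : (nbP i t).1 = lk dP (6 * i.1 + t.1) := by
  apply Nat.min_eq_left
  have := allB_spec chkLtP (6 * i.1 + t.1) (by omega)
  rwa [Nat.ble_eq] at this

theorem nbQ_val (i : Fin 203) (t : Fin 5) : (nbQ i t).1 = lk dQ (5 * i.1 + t.1) := by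
  apply Nat.min_eq_left
  have := allB_spec chkLtQ (5 * i.1 + t.1) (by omega)
  rwa [Nat.ble_eq] at this

/-- the inverse matrix -/
def matM : Matrix (Fin 203) (Fin 203) ℤ := fun i j =>
  (∑ t, if nbP i t = j then 1 else 0) - ∑ t, if nbQ i t = j then 1 else 0

theorem matM_mul : matM * matN = 1 := by
  ext i k
  have h1 : (matM * matN) i k = (∑ t, matN (nbP i t) k) - ∑ t, matN (nbQ i t) k := by
    rw [Matrix.mul_apply]
    have h2 : ∀ j, matM i j * matN j k = (∑ t, if nbP i t = j then matN j k else 0) -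
        ∑ t, if nbQ i t = j then matN j k else 0 := by
      intro j
      simp only [matM, sub_mul, Finset.sum_mul, ite_mul, one_mul, zero_mul]
    rw [Finset.sum_congr rfl fun j _ => h2 j, Finset.sum_sub_distrib, Finset.sum_comm,
      Finset.sum_comm (s := Finset.univ (α := Fin 203)) (t := Finset.univ (α := Fin 5))]
    simp
  have h3 := allB_spec (allB_spec chkMul_true i.1 i.2) k.1 k.2
  rw [h1, Fin.sum_univ_six, Fin.sum_univ_five, Matrix.one_apply]
  simp only [matN, nbP_val, nbQ_val]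
  rw [Nat.beq_eq] at h3
  have h4 : (cond (Nat.beq i.1 k.1) 2 1 : Nat) = 1 + if i = k then 1 else 0 := by
    by_cases h : i = k
    · subst h
      rw [if_pos rfl]
      have : Nat.beq i.1 i.1 = true := Nat.beq_refl _
      rw [this]
      rfl
    · rw [if_neg h]
      have : Nat.beq i.1 k.1 = false := by
        rw [Bool.eq_false_iff]
        intro h5
        exact h (Fin.ext (Nat.eq_of_beq_eq_true h5))
      rw [this]
      rfl
  rw [h4] at h3
  simp only [Nat.add_eq, Nat.mul_eq] at h3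
  have h5 : (((if i = k then 1 else 0 : Nat)) : ℤ) = if i = k then 1 else 0 := by
    split_ifs <;> rfl
  rw [← h5]
  have e0 : ((0 : Fin 6) : ℕ) = 0 := rfl
  have e1 : ((1 : Fin 6) : ℕ) = 1 := rfl
  have e2 : ((2 : Fin 6) : ℕ) = 2 := rfl
  have e3 : ((3 : Fin 6) : ℕ) = 3 := rfl
  have e4 : ((4 : Fin 6) : ℕ) = 4 := rfl
  have e5 : ((5 : Fin 6) : ℕ) = 5 := rfl
  have f0 : ((0 : Fin 5) : ℕ) = 0 := rfl
  have f1 : ((1 : Fin 5) : ℕ) = 1 := rfl
  have f2 : ((2 : Fin 5) : ℕ) = 2 := rfl
  have f3 : ((3 : Fin 5) : ℕ) = 3 := rfl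
  have f4 : ((4 : Fin 5) : ℕ) = 4 := rfl
  rw [e0, e1, e2, e3, e4, e5, f0, f1, f2, f3, f4]
  simp only [Nat.add_zero]
  generalize (if i = k then 1 else 0 : Nat) = d at h3
  generalize nE (lk dP (6 * i.1)) k.1 = p0 at h3 ⊢
  generalize nE (lk dP (6 * i.1 + 1)) k.1 = p1 at h3 ⊢
  generalize nE (lk dP (6 * i.1 + 2)) k.1 = p2 at h3 ⊢
  generalize nE (lk dP (6 * i.1 + 3)) k.1 = p3 at h3 ⊢
  generalize nE (lk dP (6 * i.1 + 4)) k.1 = p4 at h3 ⊢
  generalize nE (lk dP (6 * i.1 + 5)) k.1 = p5 at h3 ⊢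
  generalize nE (lk dQ (5 * i.1)) k.1 = q0 at h3 ⊢
  generalize nE (lk dQ (5 * i.1 + 1)) k.1 = q1 at h3 ⊢
  generalize nE (lk dQ (5 * i.1 + 2)) k.1 = q2 at h3 ⊢
  generalize nE (lk dQ (5 * i.1 + 3)) k.1 = q3 at h3 ⊢
  generalize nE (lk dQ (5 * i.1 + 4)) k.1 = q4 at h3 ⊢
  omega

theorem matN_mul : matN * matM = 1 := mul_eq_one_comm.mp matM_mul

theorem matN_inv {d e : Nat} (hd : ∀ j, j < 203 → lk d j ≤ 202) (he : ∀ j, j < 203 → lk e j ≤ 202)
    (h : chkInv d e = true) (j i : Fin 203) : matN (look d j) (look e i) = matN j i := by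
  have h1 := allB_spec (allB_spec h j.1 j.2) i.1 i.2
  rw [Nat.beq_eq] at h1
  simp only [matN]
  rw [look_val hd, look_val he, h1]

/-- the group -/
def grp : Subgroup (Perm (Fin 203) × Perm (Fin 203)) where
  carrier := {g | ∀ j i, matN (g.1 j) (g.2 i) = matN j i}
  one_mem' := fun _ _ => rfl
  mul_mem' := by
    intro g h hg hh j i
    change matN (g.1 (h.1 j)) (g.2 (h.2 i)) = _
    rw [hg, hh]
  inv_mem' := by
    intro g hg j i
    change matN (g.1⁻¹ j) (g.2⁻¹ i) = _
    have h1 := hg (g.1⁻¹ j) (g.2⁻¹ i)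
    have h2 : g.1 (g.1⁻¹ j) = j := g.1.apply_symm_apply j
    have h3 : g.2 (g.2⁻¹ i) = i := g.2.apply_symm_apply i
    rw [h2, h3] at h1
    exact h1.symm

/-- first action -/
def act1 : grp →* Perm (Fin 203) := (MonoidHom.fst _ _).comp grp.subtype

/-- second action -/
def act2 : grp →* Perm (Fin 203) := (MonoidHom.snd _ _).comp grp.subtype

theorem act_inv (g : grp) (j i : Fin 203) : matN (act1 g j) (act2 g i) = matN j i := g.2 j i

theorem act1_injective : Function.Injective act1 := by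
  rw [injective_iff_map_eq_one]
  intro g hg
  have h1 : ∀ i, act2 g i = i := by
    intro i
    by_contra hne
    have h2 : ∀ j, matN j (act2 g i) = matN j i := by
      intro j
      have := act_inv g j i
      rwa [hg] at this
    have h3 : (matM * matN) i (act2 g i) = (matM * matN) i i := by
      rw [Matrix.mul_apply, Matrix.mul_apply]
      exact Finset.sum_congr rfl fun j _ => by rw [h2]
    rw [matM_mul, Matrix.one_apply_eq, Matrix.one_apply_ne (Ne.symm hne)] at h3
    exact zero_ne_one h3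
  apply Subtype.ext
  apply Prod.ext
  · exact hg
  · ext i
    change ((act2 g i : Fin 203) : ℕ) = i
    rw [h1]

def gA : grp := ⟨(pA1, pA2), fun j i => matN_inv ltA1 ltA2 chkInvA j i⟩

def gB : grp := ⟨(pB1, pB2), fun j i => matN_inv ltB1 ltB2 chkInvB j i⟩

def gC : grp := ⟨(pC1, pC2), fun j i => matN_inv ltC1 ltC2 chkInvC j i⟩

theorem act1_A (x : Fin 203) : (act1 gA x).1 = lk dA1 x.1 := pA1_val x
theorem act1_B (x : Fin 203) : (act1 gB x).1 = lk dB1 x.1 := pB1_val x
theorem act1_C (x : Fin 203) : (act1 gC x).1 = lk dC1 x.1 := pC1_val x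
theorem act2_A (x : Fin 203) : (act2 gA x).1 = lk dA2 x.1 := pA2_val x
theorem act2_B (x : Fin 203) : (act2 gB x).1 = lk dB2 x.1 := pB2_val x
theorem act2_C (x : Fin 203) : (act2 gC x).1 = lk dC2 x.1 := pC2_val x

/-- transitivity from a rank function -/
theorem trans_of_rank (act : grp →* Perm (Fin 203)) (r : Fin 203 → Nat) (x₀ : Fin 203)
    (h : ∀ x, x = x₀ ∨ ∃ g : grp, r (act g x) < r x) (x : Fin 203) : ∃ g, act g x₀ = x := by
  induction hn : r x using Nat.strong_induction_on generalizing x with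
  | _ n ih =>
    rcases h x with h1 | ⟨g, hg⟩
    · exact ⟨1, by rw [map_one, h1]; rfl⟩
    · obtain ⟨k, hk⟩ := ih _ (hn ▸ hg) (act g x) rfl
      refine ⟨g⁻¹ * k, ?_⟩
      rw [map_mul, Perm.mul_apply, hk, map_inv]
      exact (act g).symm_apply_apply x

theorem trans1 (x : Fin 203) : ∃ g, act1 g 0 = x := by
  apply trans_of_rank act1 (fun x => lk dR1 x.1)
  intro x
  have h := allB_spec chkTr1 x.1 x.2
  simp only [Bool.or_eq_true, Nat.blt_eq, Nat.beq_eq] at h
  rcases h with ((h | h) | h) | h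
  · exact Or.inl (Fin.ext h)
  · exact Or.inr ⟨gA, by rw [act1_A]; exact h⟩
  · exact Or.inr ⟨gB * gB, by rw [map_mul, Perm.mul_apply, act1_B, act1_B]; exact h⟩
  · exact Or.inr ⟨gC, by rw [act1_C]; exact h⟩

theorem trans2 (x : Fin 203) : ∃ g, act2 g 0 = x := by
  apply trans_of_rank act2 (fun x => lk dR2 x.1)
  intro x
  have h := allB_spec chkTr2 x.1 x.2
  simp only [Bool.or_eq_true, Nat.blt_eq, Nat.beq_eq] at h
  rcases h with ((h | h) | h) | h
  · exact Or.inl (Fin.ext h)
  · exact Or.inr ⟨gA, by rw [act2_A]; exact h⟩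
  · exact Or.inr ⟨gB * gB, by rw [map_mul, Perm.mul_apply, act2_B, act2_B]; exact h⟩
  · exact Or.inr ⟨gC, by rw [act2_C]; exact h⟩

theorem noFix (x : Fin 203) : ∃ g ∈ stab act2 0, act1 g x ≠ x := by
  have h := chkFix
  simp only [Bool.and_eq_true, Nat.beq_eq] at h
  have h1 := allB_spec h.2 x.1 x.2
  by_cases h2 : lk dA1 x.1 = x.1
  · refine ⟨gB, ?_, ?_⟩
    · apply Fin.ext
      rw [act2_B]
      exact h.1.2
    · intro h3
      have h4 := congrArg Fin.val h3
      rw [act1_B] at h4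
      rw [h2, h4] at h1
      have h5 : Nat.beq x.1 x.1 = true := Nat.beq_refl _
      rw [h5] at h1
      exact absurd h1 (by decide)
  · refine ⟨gA, ?_, ?_⟩
    · apply Fin.ext
      rw [act2_A]
      exact h.1.1
    · intro h3
      have h4 := congrArg Fin.val h3
      rw [act1_A] at h4
      exact h2 h4

/-- the wreath product of `S₃` with the group -/
abbrev W : Type := Wr act1

instance : Finite grp := inferInstance

instance : Finite W := Finite.of_injective
  (fun k : W => (k.left, k.right)) (fun _ _ h => SemidirectProduct.ext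
    (congrArg Prod.fst h) (congrArg Prod.snd h))

theorem card_W : 5 ≤ Nat.card W := by
  have h := Nat.card_le_card_of_injective (pt act1 0) (pt_injective act1 0)
  rw [Nat.card_eq_fintype_card, Fintype.card_perm, Fintype.card_fin] at h
  exact le_trans (by decide) h

theorem stab_comp (act : grp →* Perm (Fin 203)) (x : Fin 203) :
    stab (act.comp (SemidirectProduct.rightHom : W →* grp)) x = pre act1 (stab act x) := rfl

theorem trans_comp (act : grp →* Perm (Fin 203)) (x₀ : Fin 203) (h : ∀ x, ∃ g, act g x₀ = x)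
    (x : Fin 203) : ∃ k, act.comp (SemidirectProduct.rightHom : W →* grp) k x₀ = x := by
  obtain ⟨g, hg⟩ := h x
  exact ⟨SemidirectProduct.inr g, hg⟩

/-- There is a finite group with two core-free integrally coset equivalent subgroups which are not
isomorphic. -/
theorem scott : ∃ (Γ : Type) (_ : Group Γ) (_ : Finite Γ) (H₁ H₂ : Subgroup Γ),
    H₁.normalCore = ⊥ ∧ H₂.normalCore = ⊥ ∧ CosetEquiv H₁ H₂ ∧ ¬ Nonempty (H₁ ≃* H₂) := by
  let f : W →* Perm W := MulAction.toPermHom W W
  have hf : Function.Injective f := MulAction.toPerm_injective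
  have hcore : ∀ S : Subgroup W, (S.map f).normalCore = ⊥ := by
    intro S
    apply regular_core card_W _ (Subgroup.normalCore_normal _)
    exact le_trans (Subgroup.normalCore_le _) (S.map_le_range f)
  refine ⟨Perm W, inferInstance, inferInstance,
    (stab (act1.comp (SemidirectProduct.rightHom : W →* grp)) 0).map f,
    (stab (act2.comp (SemidirectProduct.rightHom : W →* grp)) 0).map f,
    hcore _, hcore _, ?_, ?_⟩
  · exact cosetEquiv_of_matrix f _ _ 0 0 (trans_comp act1 0 trans1) (trans_comp act2 0 trans2)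
      matN (fun k x y => act_inv _ x y) matM matN_mul matM_mul
  · rintro ⟨e⟩
    have e1 := ((pre act1 (stab act1 0)).equivMapOfInjective f hf)
    have e2 := ((pre act1 (stab act2 0)).equivMapOfInjective f hf)
    exact not_iso act1 act1_injective (stab act1 0) (stab act2 0) 0 (fun g hg => hg) noFix
      (e1.trans (e.trans e2.symm))

end Pool.Agent.R738.ZCE
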